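import Mathlib
import Pool.Agent.R341.SG.Defs
import Pool.Agent.R341.SG.Stm

/-!
# SG-CONC: concentration of the rank and of the number of singleton fibres (subtask 4801, helper55)
-/

namespace Pool.Agent.R55.SG

open Finset Pool.Agent.R341.SG

/-- Chebyshev's inequality for counting. -/
lemma cheb {Ω : Type*} [Fintype Ω] (F : Ω → ℝ) (c s M : ℝ) (hs : 0 < s)
    (h : ∑ ω, (F ω - c) ^ 2 ≤ M) :
    ((univ.filter fun ω => s < |F ω - c|).card : ℝ) ≤ M / s ^ 2 := by
  rw [le_div_iff₀ (by positivity)]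
  calc ((univ.filter fun ω => s < |F ω - c|).card : ℝ) * s ^ 2
      = ∑ ω ∈ univ.filter (fun ω => s < |F ω - c|), s ^ 2 := by simp
    _ ≤ ∑ ω ∈ univ.filter (fun ω => s < |F ω - c|), (F ω - c) ^ 2 := by
        apply sum_le_sum
        intro ω hω
        have := (mem_filter.1 hω).2
        rw [← sq_abs (F ω - c)]
        exact pow_le_pow_left₀ hs.le this.le 2
    _ ≤ ∑ ω, (F ω - c) ^ 2 :=
        sum_le_sum_of_subset_of_nonneg (filter_subset _ _) (fun _ _ _ => sq_nonneg _)
    _ ≤ M := h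

/-- Second moment of a sum of indicators. -/
lemma second {Ω ι : Type*} [Fintype Ω] [Fintype ι] [DecidableEq ι] (P : ι → Ω → Prop)
    [∀ i ω, Decidable (P i ω)] (A B c : ℝ)
    (hA : ∀ i, ((univ.filter fun ω => P i ω).card : ℝ) = A)
    (hB : ∀ i j, i ≠ j → ((univ.filter fun ω => P i ω ∧ P j ω).card : ℝ) ≤ B) :
    ∑ ω : Ω, (((univ.filter fun i => P i ω).card : ℝ) - c) ^ 2 ≤
      Fintype.card ι * A + (Fintype.card ι * (Fintype.card ι - 1) : ℝ) * B
        - 2 * c * (Fintype.card ι * A) + c ^ 2 * Fintype.card Ω := by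
  classical
  have h1 : ∀ ω, ((univ.filter fun i => P i ω).card : ℝ) = ∑ i, if P i ω then (1 : ℝ) else 0 := by
    intro ω
    rw [card_filter]
    push_cast
    rfl
  have hS : ∑ ω : Ω, ((univ.filter fun i => P i ω).card : ℝ) = Fintype.card ι * A := by
    simp_rw [h1]
    rw [sum_comm]
    have : ∀ i : ι, ∑ ω : Ω, (if P i ω then (1 : ℝ) else 0) = A := by
      intro i
      rw [← hA i, card_filter]
      push_cast
      rfl
    simp_rw [this]
    simp
  have hQ : ∑ ω : Ω, ((univ.filter fun i => P i ω).card : ℝ) ^ 2 ≤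
      Fintype.card ι * A + (Fintype.card ι * (Fintype.card ι - 1) : ℝ) * B := by
    have e1 : ∀ ω, ((univ.filter fun i => P i ω).card : ℝ) ^ 2 =
        ∑ i, ∑ j, if P i ω ∧ P j ω then (1 : ℝ) else 0 := by
      intro ω
      rw [h1, sq, sum_mul_sum]
      refine sum_congr rfl fun i _ => sum_congr rfl fun j _ => ?_
      by_cases hi : P i ω <;> by_cases hj : P j ω <;> simp [hi, hj]
    simp_rw [e1]
    rw [sum_comm]
    have e2 : ∀ i : ι, ∑ ω : Ω, ∑ j, (if P i ω ∧ P j ω then (1 : ℝ) else 0) ≤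
        A + ((Fintype.card ι : ℝ) - 1) * B := by
      intro i
      rw [sum_comm, ← add_sum_erase _ _ (mem_univ i)]
      have e3 : ∀ j, ∑ ω : Ω, (if P i ω ∧ P j ω then (1 : ℝ) else 0) =
          ((univ.filter fun ω => P i ω ∧ P j ω).card : ℝ) := by
        intro j
        rw [card_filter]
        push_cast
        rfl
      simp_rw [e3]
      have e4 : ((univ.filter fun ω => P i ω ∧ P i ω).card : ℝ) = A := by
        rw [← hA i]
        simp
      rw [e4]
      have e5 : ∑ j ∈ univ.erase i, ((univ.filter fun ω => P i ω ∧ P j ω).card : ℝ) ≤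
          ∑ _j ∈ univ.erase i, B :=
        sum_le_sum fun j hj => hB i j (ne_of_mem_erase hj).symm
      have hc : (((univ : Finset ι).erase i).card : ℝ) = (Fintype.card ι : ℝ) - 1 := by
        rw [card_erase_of_mem (mem_univ i), card_univ]
        have : 1 ≤ Fintype.card ι := Fintype.card_pos_iff.2 ⟨i⟩
        push_cast [Nat.cast_sub this]
        ring
      rw [sum_const, nsmul_eq_mul, hc] at e5
      linarith
    calc ∑ i : ι, ∑ ω : Ω, ∑ j, (if P i ω ∧ P j ω then (1 : ℝ) else 0)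
        ≤ ∑ _i : ι, (A + ((Fintype.card ι : ℝ) - 1) * B) := sum_le_sum fun i _ => e2 i
      _ = _ := by
          rw [sum_const, nsmul_eq_mul, card_univ]
          ring
  have e6 : ∑ ω : Ω, (((univ.filter fun i => P i ω).card : ℝ) - c) ^ 2 =
      ∑ ω : Ω, ((univ.filter fun i => P i ω).card : ℝ) ^ 2
        - 2 * c * ∑ ω : Ω, ((univ.filter fun i => P i ω).card : ℝ) + c ^ 2 * Fintype.card Ω := by
    have : ∀ ω : Ω, (((univ.filter fun i => P i ω).card : ℝ) - c) ^ 2 =
        ((univ.filter fun i => P i ω).card : ℝ) ^ 2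
          - 2 * c * ((univ.filter fun i => P i ω).card : ℝ) + c ^ 2 := fun ω => by ring
    simp_rw [this]
    rw [sum_add_distrib, sum_sub_distrib, ← mul_sum]
    simp
    ring
  rw [e6, hS]
  linarith

lemma exp_lo (n : ℕ) (hn : 1 ≤ n) : (1 - 1 / (n : ℝ)) ^ n ≤ Real.exp (-1) := by
  have hn' : (1 : ℝ) ≤ n := by exact_mod_cast hn
  have h0 : (0 : ℝ) ≤ 1 - 1 / (n : ℝ) := by
    have : 1 / (n : ℝ) ≤ 1 := by rw [div_le_one (by positivity)]; exact hn'
    linarith
  have h1 : 1 - 1 / (n : ℝ) ≤ Real.exp (-(1 / (n : ℝ))) := by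
    have := Real.add_one_le_exp (-(1 / (n : ℝ)))
    linarith
  calc (1 - 1 / (n : ℝ)) ^ n ≤ (Real.exp (-(1 / (n : ℝ)))) ^ n := pow_le_pow_left₀ h0 h1 n
    _ = Real.exp (-1) := by
        rw [← Real.exp_nat_mul]
        congr 1
        field_simp

lemma exp_hi (n : ℕ) (hn : 1 ≤ n) : Real.exp (-1) ≤ (1 - 1 / (n : ℝ)) ^ (n - 1) := by
  obtain ⟨m, rfl⟩ : ∃ m, n = m + 1 := ⟨n - 1, by omega⟩
  rcases Nat.eq_zero_or_pos m with rfl | hm
  · simp
  · have hm' : (0 : ℝ) < m := by exact_mod_cast hm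
    have e : (1 - 1 / ((m + 1 : ℕ) : ℝ)) = (1 + 1 / (m : ℝ))⁻¹ := by
      push_cast
      field_simp
      ring
    rw [e, Nat.add_sub_cancel, inv_pow, Real.exp_neg]
    apply inv_anti₀ (by positivity)
    have h1 : 1 + 1 / (m : ℝ) ≤ Real.exp (1 / (m : ℝ)) := by
      have := Real.add_one_le_exp (1 / (m : ℝ))
      linarith
    calc (1 + 1 / (m : ℝ)) ^ m ≤ (Real.exp (1 / (m : ℝ))) ^ m :=
          pow_le_pow_left₀ (by positivity) h1 m
      _ = Real.exp 1 := by
          rw [← Real.exp_nat_mul]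
          congr 1
          field_simp

/-- the common final computation -/
lemma fin_bound (n : ℕ) (hn : 1 ≤ n) (A B a : ℝ) (hA : A = a * (n : ℝ) ^ n)
    (hB : ((n : ℝ) * (n - 1)) * B ≤ (n * a) ^ 2 * (n : ℝ) ^ n) (ha : a ≤ 1)
    (ha' : (n * |a - Real.exp (-1)|) ≤ 1) :
    (n * A + ((n : ℝ) * (n - 1)) * B - 2 * (n * Real.exp (-1)) * (n * A)
      + (n * Real.exp (-1)) ^ 2 * (n : ℝ) ^ n) ≤ 2 * n * (n : ℝ) ^ n := by
  have hn' : (1 : ℝ) ≤ n := by exact_mod_cast hn
  have hN : (0 : ℝ) < (n : ℝ) ^ n := by positivity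
  have h1 : (n * a - n * Real.exp (-1)) ^ 2 ≤ 1 := by
    rw [← mul_sub, ← sq_abs, abs_mul, Nat.abs_cast]
    have h0 : (0 : ℝ) ≤ n * |a - Real.exp (-1)| := by positivity
    nlinarith
  have h2 : (n * A + ((n : ℝ) * (n - 1)) * B - 2 * (n * Real.exp (-1)) * (n * A)
      + (n * Real.exp (-1)) ^ 2 * (n : ℝ) ^ n) ≤
      (n * a + (n * a - n * Real.exp (-1)) ^ 2) * (n : ℝ) ^ n := by
    rw [hA]
    nlinarith
  refine h2.trans ?_
  apply mul_le_mul_of_nonneg_right _ hN.le
  nlinarith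

lemma cU1 {n : ℕ} (y : Fin n) :
    ((univ : Finset (Fin n → Fin n)).filter fun f => ∀ x, f x ≠ y).card = (n - 1) ^ n := by
  have : ((univ : Finset (Fin n → Fin n)).filter fun f => ∀ x, f x ≠ y) =
      Fintype.piFinset (fun _ => univ.erase y) := by
    ext f
    simp [Fintype.mem_piFinset]
  rw [this, Fintype.card_piFinset]
  simp

lemma cU2 {n : ℕ} (y y' : Fin n) (h : y ≠ y') :
    ((univ : Finset (Fin n → Fin n)).filter fun f => (∀ x, f x ≠ y) ∧ (∀ x, f x ≠ y')).card
      = (n - 2) ^ n := by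
  have : ((univ : Finset (Fin n → Fin n)).filter fun f => (∀ x, f x ≠ y) ∧ (∀ x, f x ≠ y')) =
      Fintype.piFinset (fun _ => (univ.erase y).erase y') := by
    ext f
    simp only [mem_filter, mem_univ, true_and, Fintype.mem_piFinset, mem_erase, and_true]
    constructor
    · rintro ⟨h1, h2⟩ x
      exact ⟨h2 x, h1 x⟩
    · intro h
      exact ⟨fun x => (h x).2, fun x => (h x).1⟩
  rw [this, Fintype.card_piFinset]
  have e : ((univ.erase y).erase y').card = n - 2 := by
    rw [card_erase_of_mem (mem_erase.2 ⟨h.symm, mem_univ _⟩), card_erase_of_mem (mem_univ _)]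
    simp
    omega
  simp [e]

lemma cS1 {n : ℕ} (x : Fin n) :
    ((univ : Finset (Fin n → Fin n)).filter fun f => ∀ y, f y = f x → y = x).card
      = n * (n - 1) ^ (n - 1) := by
  rw [card_eq_sum_card_fiberwise (f := fun f => f x) (t := univ) (fun _ _ => by simp)]
  have : ∀ v : Fin n, (((univ : Finset (Fin n → Fin n)).filter
      fun f => ∀ y, f y = f x → y = x).filter fun f => f x = v).card = (n - 1) ^ (n - 1) := by
    intro v
    have e : (((univ : Finset (Fin n → Fin n)).filter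
        fun f => ∀ y, f y = f x → y = x).filter fun f => f x = v) =
        Fintype.piFinset (fun y => if y = x then {v} else univ.erase v) := by
      ext f
      simp only [mem_filter, mem_univ, true_and, Fintype.mem_piFinset]
      constructor
      · rintro ⟨h1, h2⟩ y
        by_cases hy : y = x
        · simp [hy, h2]
        · simp only [hy, if_false, mem_erase, mem_univ, and_true]
          intro h3
          exact hy (h1 y (h3.trans h2.symm))
      · intro h
        have hx : f x = v := by simpa using h x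
        refine ⟨fun y hy => ?_, hx⟩
        by_contra hyx
        have := h y
        simp only [hyx, if_false, mem_erase, mem_univ, and_true] at this
        exact this (hy.trans hx)
    rw [e, Fintype.card_piFinset, ← mul_prod_erase univ _ (mem_univ x)]
    have e2 : ∏ y ∈ univ.erase x, (if y = x then ({v} : Finset (Fin n)) else univ.erase v).card =
        ∏ _y ∈ univ.erase x, (n - 1) := by
      refine prod_congr rfl fun y hy => ?_
      simp [ne_of_mem_erase hy]
    rw [e2]
    simp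
  simp_rw [this]
  simp

lemma cS2 {n : ℕ} (x x' : Fin n) (hx : x ≠ x') :
    ((univ : Finset (Fin n → Fin n)).filter fun f => (∀ y, f y = f x → y = x) ∧
      (∀ y, f y = f x' → y = x')).card ≤ n * (n - 1) * (n - 2) ^ (n - 2) := by
  rw [card_eq_sum_card_fiberwise (f := fun f => (f x, f x'))
    (t := (univ : Finset (Fin n)).offDiag) (fun f hf => by
      simp only [coe_filter, mem_univ, true_and, Set.mem_ofPred_eq] at hf
      simp only [coe_offDiag, Set.mem_offDiag, coe_univ, Set.mem_univ, true_and]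
      intro h
      exact hx (hf.2 x h))]
  have : ∀ v ∈ (univ : Finset (Fin n)).offDiag, (((univ : Finset (Fin n → Fin n)).filter
      fun f => (∀ y, f y = f x → y = x) ∧ (∀ y, f y = f x' → y = x')).filter
        fun f => (f x, f x') = v).card ≤ (n - 2) ^ (n - 2) := by
    rintro ⟨v, v'⟩ hv
    have hvv : v ≠ v' := by simpa using hv
    have e : (((univ : Finset (Fin n → Fin n)).filter
        fun f => (∀ y, f y = f x → y = x) ∧ (∀ y, f y = f x' → y = x')).filter
          fun f => (f x, f x') = (v, v')) ⊆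
        Fintype.piFinset (fun y => if y = x then {v} else if y = x' then {v'} else
          (univ.erase v).erase v') := by
      intro f
      simp only [mem_filter, mem_univ, true_and, Fintype.mem_piFinset, Prod.mk.injEq]
      rintro ⟨⟨h1, h1'⟩, h2, h2'⟩ y
      by_cases hy : y = x
      · simp [hy, h2]
      · by_cases hy' : y = x'
        · subst hy'
          simp [hy, h2']
        · simp only [hy, hy', if_false, mem_erase, mem_univ, and_true]
          exact ⟨fun h3 => hy' (h1' y (h3.trans h2'.symm)), fun h3 => hy (h1 y (h3.trans h2.symm))⟩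
    refine (card_le_card e).trans ?_
    have hx'm : x' ∈ univ.erase x := mem_erase.2 ⟨hx.symm, mem_univ _⟩
    rw [Fintype.card_piFinset, ← mul_prod_erase univ _ (mem_univ x),
      ← mul_prod_erase (univ.erase x) _ hx'm]
    have e1 : ((univ.erase v).erase v').card = n - 2 := by
      rw [card_erase_of_mem (mem_erase.2 ⟨hvv.symm, mem_univ _⟩), card_erase_of_mem (mem_univ _)]
      simp
      omega
    have e3 : ((univ.erase x).erase x').card = n - 2 := by
      rw [card_erase_of_mem hx'm, card_erase_of_mem (mem_univ _)]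
      simp
      omega
    have e2 : ∏ y ∈ (univ.erase x).erase x', (if y = x then ({v} : Finset (Fin n)) else
        if y = x' then {v'} else (univ.erase v).erase v').card =
        ∏ _y ∈ (univ.erase x).erase x', (n - 2) := by
      refine prod_congr rfl fun y hy => ?_
      have h1 : y ≠ x' := ne_of_mem_erase hy
      have h2 : y ≠ x := ne_of_mem_erase (mem_of_mem_erase hy)
      simp [h1, h2, e1]
    rw [e2, prod_const, e3]
    simp [hx.symm]
  refine (sum_le_sum this).trans ?_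
  rw [sum_const, offDiag_card]
  simp
  rw [Nat.mul_sub_one]

/-- probability of missing one value -/
lemma momU (n : ℕ) (hn : 1 ≤ n) :
    ∑ f : Fin n → Fin n, (((univ.filter fun y => ∀ x, f x ≠ y).card : ℝ)
      - n * Real.exp (-1)) ^ 2 ≤ 2 * n * (n : ℝ) ^ n := by
  have hn' : (1 : ℝ) ≤ n := by exact_mod_cast hn
  have hn0 : (0 : ℝ) < n := by linarith
  have h := second (Ω := Fin n → Fin n) (ι := Fin n) (fun y f => ∀ x, f x ≠ y)
    (((n - 1 : ℕ) : ℝ) ^ n) (((n - 2 : ℕ) : ℝ) ^ n) (n * Real.exp (-1))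
    (fun i => by rw [cU1 i]; push_cast; rfl)
    (fun i j hij => by rw [cU2 i j hij]; push_cast; exact le_rfl)
  refine h.trans ?_
  simp only [Fintype.card_fin, Fintype.card_pi, prod_const, card_univ]
  push_cast
  have hc : ((n - 1 : ℕ) : ℝ) = n - 1 := by push_cast [Nat.cast_sub hn]; ring
  have ea : ((n - 1 : ℕ) : ℝ) ^ n = (1 - 1 / (n : ℝ)) ^ n * (n : ℝ) ^ n := by
    rw [hc, ← mul_pow]
    congr 1
    field_simp
  have hq0 : (0 : ℝ) ≤ 1 - 1 / (n : ℝ) := by
    have : 1 / (n : ℝ) ≤ 1 := by rw [div_le_one (by positivity)]; exact hn'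
    linarith
  have hq1 : 1 - 1 / (n : ℝ) ≤ 1 := by
    have : 0 ≤ 1 / (n : ℝ) := by positivity
    linarith
  apply fin_bound n hn _ _ ((1 - 1 / (n : ℝ)) ^ n) ea
  · rcases Nat.lt_or_ge n 2 with h2 | h2
    · have : n = 1 := by omega
      subst this
      norm_num
    · have hc2 : ((n - 2 : ℕ) : ℝ) = n - 2 := by push_cast [Nat.cast_sub h2]; ring
      have hn2 : (2 : ℝ) ≤ n := by exact_mod_cast h2
      have k1 : ((n - 2 : ℕ) : ℝ) ^ n ≤ ((1 - 1 / (n : ℝ)) ^ n) ^ 2 * (n : ℝ) ^ n := by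
        rw [← pow_mul, mul_comm n 2, pow_mul, ← mul_pow, hc2]
        apply pow_le_pow_left₀ (by linarith)
        have : (1 - 1 / (n : ℝ)) ^ 2 * n = n - 2 + 1 / n := by field_simp; ring
        rw [this]
        have : 0 ≤ 1 / (n : ℝ) := by positivity
        linarith
      have k2 : (n : ℝ) * (n - 1) ≤ n ^ 2 := by nlinarith
      calc (n : ℝ) * (n - 1) * ((n - 2 : ℕ) : ℝ) ^ n
          ≤ n ^ 2 * (((1 - 1 / (n : ℝ)) ^ n) ^ 2 * (n : ℝ) ^ n) :=
            mul_le_mul k2 k1 (by positivity) (by positivity)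
        _ = _ := by ring
  · exact pow_le_one₀ hq0 hq1
  · have h1 := exp_lo n hn
    have h2 := exp_hi n hn
    have h3 : (1 - 1 / (n : ℝ)) ^ n = (1 - 1 / (n : ℝ)) * (1 - 1 / (n : ℝ)) ^ (n - 1) := by
      rw [← pow_succ']
      congr 1
      omega
    rw [abs_of_nonpos (by linarith)]
    have h4 : (1 - 1 / (n : ℝ)) * Real.exp (-1) ≤ (1 - 1 / (n : ℝ)) ^ n := by
      rw [h3]
      exact mul_le_mul_of_nonneg_left h2 hq0
    have h5 : Real.exp (-1) ≤ 1 := by
      rw [Real.exp_le_one_iff]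
      norm_num
    have h6 : (n : ℝ) * (1 - 1 / n) = n - 1 := by field_simp
    nlinarith

/-- second moment of the number of singleton fibres -/
lemma momS (n : ℕ) (hn : 1 ≤ n) :
    ∑ f : Fin n → Fin n, (((univ.filter fun x => ∀ y, f y = f x → y = x).card : ℝ)
      - n * Real.exp (-1)) ^ 2 ≤ 2 * n * (n : ℝ) ^ n := by
  have hn' : (1 : ℝ) ≤ n := by exact_mod_cast hn
  have hn0 : (0 : ℝ) < n := by linarith
  have h := second (Ω := Fin n → Fin n) (ι := Fin n) (fun x f => ∀ y, f y = f x → y = x)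
    ((n : ℝ) * ((n - 1 : ℕ) : ℝ) ^ (n - 1))
    ((n : ℝ) * ((n - 1 : ℕ) : ℝ) * ((n - 2 : ℕ) : ℝ) ^ (n - 2)) (n * Real.exp (-1))
    (fun i => by rw [cS1 i]; push_cast; rfl)
    (fun i j hij => by
      have := cS2 i j hij
      exact_mod_cast this)
  refine h.trans ?_
  simp only [Fintype.card_fin, Fintype.card_pi, prod_const, card_univ]
  push_cast
  have hc : ((n - 1 : ℕ) : ℝ) = n - 1 := by push_cast [Nat.cast_sub hn]; ring
  have ea : (n : ℝ) * ((n - 1 : ℕ) : ℝ) ^ (n - 1) = (1 - 1 / (n : ℝ)) ^ (n - 1) * (n : ℝ) ^ n := by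
    have : (n : ℝ) ^ n = n * (n : ℝ) ^ (n - 1) := by
      rw [← pow_succ']
      congr 1
      omega
    rw [hc, this]
    have e : (n : ℝ) - 1 = (1 - 1 / n) * n := by field_simp
    rw [e, mul_pow]
    ring
  have hq0 : (0 : ℝ) ≤ 1 - 1 / (n : ℝ) := by
    have : 1 / (n : ℝ) ≤ 1 := by rw [div_le_one (by positivity)]; exact hn'
    linarith
  have hq1 : 1 - 1 / (n : ℝ) ≤ 1 := by
    have : 0 ≤ 1 / (n : ℝ) := by positivity
    linarith
  apply fin_bound n hn _ _ ((1 - 1 / (n : ℝ)) ^ (n - 1)) ea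
  · rcases Nat.lt_or_ge n 2 with h2 | h2
    · have : n = 1 := by omega
      subst this
      norm_num
    · obtain ⟨m, rfl⟩ : ∃ m, n = m + 2 := ⟨n - 2, by omega⟩
      have e1 : m + 2 - 1 = m + 1 := by omega
      have e2 : m + 2 - 2 = m := by omega
      rw [e1, e2]
      have hm0 : (0 : ℝ) ≤ m := by positivity
      have k1 : (m : ℝ) ^ m ≤ ((1 - 1 / ((m + 2 : ℕ) : ℝ)) ^ m) ^ 2 * ((m + 2 : ℕ) : ℝ) ^ m := by
        rw [← pow_mul, mul_comm m 2, pow_mul, ← mul_pow]
        apply pow_le_pow_left₀ hm0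
        have : (1 - 1 / ((m + 2 : ℕ) : ℝ)) ^ 2 * ((m + 2 : ℕ) : ℝ) = m + 1 / ((m + 2 : ℕ) : ℝ) := by
          push_cast
          field_simp
          ring
        rw [this]
        have : 0 ≤ 1 / ((m + 2 : ℕ) : ℝ) := by positivity
        linarith
      have k2 : ((m + 2 : ℕ) : ℝ) * (((m + 2 : ℕ) : ℝ) - 1) * (((m + 2 : ℕ) : ℝ) * ((m + 1 : ℕ) : ℝ) *
          (m : ℝ) ^ m) = (((m + 2 : ℕ) : ℝ) * ((m + 1 : ℕ) : ℝ)) ^ 2 * (m : ℝ) ^ m := by
        push_cast
        ring
      have k3 : (((m + 2 : ℕ) : ℝ) * (1 - 1 / ((m + 2 : ℕ) : ℝ)) ^ (m + 1)) ^ 2 *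
          ((m + 2 : ℕ) : ℝ) ^ (m + 2) = (((m + 2 : ℕ) : ℝ) * ((m + 1 : ℕ) : ℝ)) ^ 2 *
          (((1 - 1 / ((m + 2 : ℕ) : ℝ)) ^ m) ^ 2 * ((m + 2 : ℕ) : ℝ) ^ m) := by
        have : (1 - 1 / ((m + 2 : ℕ) : ℝ)) * ((m + 2 : ℕ) : ℝ) = ((m + 1 : ℕ) : ℝ) := by
          push_cast
          field_simp
          ring
        rw [← this, pow_succ, pow_succ (((m + 2 : ℕ) : ℝ)) (m + 1), pow_succ]
        ring
      rw [k2, k3]
      exact mul_le_mul_of_nonneg_left k1 (by positivity)
  · exact pow_le_one₀ hq0 hq1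
  · have h1 := exp_lo n hn
    have h2 := exp_hi n hn
    have h3 : (1 - 1 / (n : ℝ)) ^ n = (1 - 1 / (n : ℝ)) * (1 - 1 / (n : ℝ)) ^ (n - 1) := by
      rw [← pow_succ']
      congr 1
      omega
    rw [abs_of_nonneg (by linarith)]
    have h4 : (1 - 1 / (n : ℝ)) * (1 - 1 / (n : ℝ)) ^ (n - 1) ≤ Real.exp (-1) := by
      rw [← h3]
      exact h1
    have h5 : (1 - 1 / (n : ℝ)) ^ (n - 1) ≤ 1 := pow_le_one₀ hq0 hq1
    have h6 : (n : ℝ) * (1 - 1 / n) = n - 1 := by field_simp
    have h7 : (n : ℝ) * ((1 - 1 / (n : ℝ)) * (1 - 1 / (n : ℝ)) ^ (n - 1)) ≤ n * Real.exp (-1) :=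
      mul_le_mul_of_nonneg_left h4 hn0.le
    nlinarith

/-- SG-CONC -/
theorem sconc : SCONC := by
  refine ⟨2, by norm_num, fun n hn t ht => ?_⟩
  have hn' : (1 : ℝ) ≤ n := by exact_mod_cast hn
  have hs : 0 < t * Real.sqrt n := by positivity
  have hsq : (t * Real.sqrt n) ^ 2 = t ^ 2 * n := by
    rw [mul_pow, Real.sq_sqrt (by positivity)]
  have hfin : 2 * n * (n : ℝ) ^ n / (t * Real.sqrt n) ^ 2 = 2 / t ^ 2 * (n : ℝ) ^ n := by
    rw [hsq]
    field_simp
  constructor
  · have h := cheb (fun f : Fin n → Fin n => ((univ.filter fun y => ∀ x, f x ≠ y).card : ℝ))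
      (n * Real.exp (-1)) (t * Real.sqrt n) _ hs (momU n hn)
    rw [hfin] at h
    refine le_trans (le_of_eq ?_) h
    congr 2
    ext f
    simp only [mem_filter, mem_univ, true_and]
    have e : (rk f : ℝ) - rho * n =
        -(((univ.filter fun y => ∀ x, f x ≠ y).card : ℝ) - n * Real.exp (-1)) := by
      have h1 : rk f + (univ.filter fun y => ∀ x, f x ≠ y).card = n := by
        have h2 : (univ.filter fun y => ∀ x, f x ≠ y) = (im f)ᶜ := by
          ext y
          simp [im]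
        rw [h2, rk, card_add_card_compl]
        simp
      have h3 : (rk f : ℝ) + ((univ.filter fun y => ∀ x, f x ≠ y).card : ℝ) = n := by
        exact_mod_cast h1
      rw [rho]
      linear_combination h3
    rw [e, abs_neg]
  · have h := cheb (fun f : Fin n → Fin n =>
      ((univ.filter fun x => ∀ y, f y = f x → y = x).card : ℝ))
      (n * Real.exp (-1)) (t * Real.sqrt n) _ hs (momS n hn)
    rw [hfin] at h
    refine le_trans (le_of_eq ?_) h
    congr 2
    ext f
    simp only [mem_filter, mem_univ, true_and]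
    have e : (sg f : ℝ) - (1 - rho) * n =
        (((univ.filter fun x => ∀ y, f y = f x → y = x).card : ℝ) - n * Real.exp (-1)) := by
      rw [rho, sg]
      ring
    rw [e]

end Pool.Agent.R55.SG
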